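import Pool.Agent.Helper27.RV.St

/-! # Project RV, module CVE -/

set_option autoImplicit false

open Cardinal Ordinal Set

universe u

namespace Pool.Agent.Helper89.RV

open Pool.Agent.Helper27.RV

theorem pCVE : StCVE.{u} := by
  intro K β δ m t hK ht hβ
  obtain ⟨k0⟩ := hK
  refine ⟨t.ToType, ?_, fun i _ => i.toOrd, fun y hy => ?_⟩
  · rw [mk_toType]
    exact Cardinal.lt_ord.1 ht
  · refine ⟨Set.range fun e => (ToType.mk ⟨y e, hy e⟩ : t.ToType), mk_range_le.trans hβ,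
      fun e => ⟨ToType.mk ⟨y e, hy e⟩, ⟨e, rfl⟩, k0, ?_⟩⟩
    simp [ToType.toOrd]

end Pool.Agent.Helper89.RV
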