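import Pool.Agent.Helper27.RV.StL

/-! # Project RV, module LCT -/

set_option autoImplicit false

open Cardinal Ordinal Set Filter

universe u

namespace Pool.Agent.Helper89.RV

open Pool.Agent.Helper27.RV Pool.Agent.Helper65.GS Pool.Agent.Helper36.VC

private theorem toOrd_mk {t a : Ordinal.{u}} (ha : a < t) :
    ((ToType.mk ⟨a, ha⟩ : t.ToType).toOrd : Ordinal.{u}) = a := by
  simp [ToType.toOrd]

private theorem toOrd_inj {t : Ordinal.{u}} :
    Function.Injective (fun v : t.ToType => (v.toOrd : Ordinal.{u})) :=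
  fun _ _ h => ToType.mk.symm.injective (Subtype.ext h)

/-- the points of `D x` are listed by `K` -/
private theorem list_D (hDSM : StDSM.{u}) (hKNU : StKNU.{u}) {κ : Cardinal.{u}}
    (K β : Type u) (δ : Cardinal.{u}) (S : Ordinal.{u} → β → Ordinal.{u}) (t : Ordinal.{u})
    (g : K → Ordinal.{u}) (hK0 : ℵ₀ ≤ #K) (hβ : #β < κ) (hδ : ℵ₀ ≤ δ) (hKκ : #K ^ κ ≤ #K)
    (h2κ : (2 : Cardinal.{u}) ^ κ ≤ #K) :
    ∃ d : K → Ordinal.{u}, ∀ v < t, {e | ∃ k, S v e = g k} ∉ KN δ S v → ∃ k, d k = v := by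
  obtain ⟨n1, -, n3⟩ := hKNU β δ S hδ
  have hne : #K ≠ 0 := (aleph0_pos.trans_le hK0).ne'
  have h1 := hDSM β t.ToType K (fun v => S v.toOrd) (fun v => v.toOrd)
    (fun v => KN δ S v.toOrd) (fun _ k => g k) toOrd_inj hK0
    ((power_le_power_left hne hβ.le).trans hKκ)
    ((power_le_power_left two_ne_zero hβ.le).trans h2κ)
    (fun a Y Z hYZ hZ => n1 _ Y Z hYZ hZ) (fun a b hab => n3 _ _ hab)
  rcases Set.eq_empty_or_nonempty {a : t.ToType | {x | ∃ k, S a.toOrd x = g k} ∉ KN δ S a.toOrd}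
    with h0 | h0
  · refine ⟨fun _ => 0, fun v hv hv2 => ?_⟩
    have h2 : (ToType.mk ⟨v, hv⟩ : t.ToType) ∈
        {a : t.ToType | {x | ∃ k, S a.toOrd x = g k} ∉ KN δ S a.toOrd} := by
      show {x | ∃ k, S (ToType.mk ⟨v, hv⟩ : t.ToType).toOrd x = g k} ∉
        KN δ S (ToType.mk ⟨v, hv⟩ : t.ToType).toOrd
      rw [toOrd_mk hv]
      exact hv2
    rw [h0] at h2
    exact absurd h2 (by simp)
  · obtain ⟨e, -, he⟩ := enum_set (K := K) _ h1 h0
    refine ⟨fun k => (e k).toOrd, fun v hv hv2 => ?_⟩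
    obtain ⟨k, hk⟩ := he (ToType.mk ⟨v, hv⟩) (by
      show {x | ∃ k, S (ToType.mk ⟨v, hv⟩ : t.ToType).toOrd x = g k} ∉
        KN δ S (ToType.mk ⟨v, hv⟩ : t.ToType).toOrd
      rw [toOrd_mk hv]
      exact hv2)
    refine ⟨k, ?_⟩
    show ((e k).toOrd : Ordinal.{u}) = v
    rw [hk, toOrd_mk hv]

theorem pLCT (hDSM : StDSM.{u}) (hKNU : StKNU.{u}) : StLCT.{u} := by
  classical
  intro X κ W A t l f hS K β δ S p hβ hδ hKκ h2κ
  have hK0 : ℵ₀ ≤ #K := (hS.unc.le.trans (cantor κ).le).trans h2κ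
  have hKne : #K ≠ 0 := (aleph0_pos.trans_le hK0).ne'
  have hKn : Nonempty K := Cardinal.mk_ne_zero_iff.1 hKne
  choose d hd using fun x : X => list_D hDSM hKNU K β δ S t (fun k => f (p k) x) hK0 hβ hδ hKκ h2κ
  -- the sets
  let Y : Ordinal.{u} → Set X := fun y =>
    {x ∈ {x ∈ A | {e | ∃ k, S (f y x) e = f (p k) x} ∉ KN δ S (f y x)} | f y x < t}
  have hY : ∀ y < l, Pos W {x ∈ A | {e | ∃ k, S (f y x) e = f (p k) x} ∉ KN δ S (f y x)} →
      Pos W (Y y) := by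
    intro y hy hp
    exact hp.ae ((hS.rep.bd y hy).mono fun x hx hxB => hx hxB.1)
  have hξ : ∀ y x, ∃ k, x ∈ Y y → d x k = f y x := by
    intro y x
    by_cases hx : x ∈ Y y
    · obtain ⟨k, hk⟩ := hd x (f y x) hx.2 hx.1.2
      exact ⟨k, fun _ => hk⟩
    · exact ⟨hKn.some, fun h => absurd h hx⟩
  choose ξ hξ2 using hξ
  let Q : Set l.ToType := {y | Pos W {x ∈ A | {e | ∃ k, S (f y.toOrd x) e = f (p k) x} ∉
    KN δ S (f y.toOrd x)}}
  have hinj : Function.Injective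
      (fun y : Q => ((Y (y : l.ToType).toOrd, ξ (y : l.ToType).toOrd) : Set X × (X → K))) := by
    intro y y' hyy
    have e1 : Y (y : l.ToType).toOrd = Y (y' : l.ToType).toOrd := (Prod.ext_iff.1 hyy).1
    have e2 : ξ (y : l.ToType).toOrd = ξ (y' : l.ToType).toOrd := (Prod.ext_iff.1 hyy).2
    have hp := hY _ (y : l.ToType).toOrd.2 y.2
    have he : ((y : l.ToType).toOrd : Ordinal.{u}) = (y' : l.ToType).toOrd := by
      refine hS.rep.eq_of_eq (B := Y (y : l.ToType).toOrd) (fun x hx => hx.1.1) hp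
        (y : l.ToType).toOrd.2 (y' : l.ToType).toOrd.2 fun x hx => ?_
      have h1 := hξ2 _ x hx
      rw [e1] at hx
      have h2 := hξ2 _ x hx
      rw [← h1, ← h2, e2]
    exact Subtype.ext (toOrd_inj he)
  have hcard : #Q ≤ #K := by
    refine (Cardinal.mk_le_of_injective hinj).trans ?_
    rw [Cardinal.mk_prod, Cardinal.mk_set, ← Cardinal.power_def, hS.card, Cardinal.lift_id, Cardinal.lift_id]
    exact (mul_le_mul' h2κ hKκ).trans (mul_eq_self hK0).le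
  rcases Set.eq_empty_or_nonempty Q with h0 | h0
  · refine ⟨fun _ => 0, fun y hy hp => ?_⟩
    have h2 : (ToType.mk ⟨y, hy⟩ : l.ToType) ∈ Q := by
      show Pos W {x ∈ A | {e | ∃ k, S (f (ToType.mk ⟨y, hy⟩ : l.ToType).toOrd x) e = f (p k) x} ∉
        KN δ S (f (ToType.mk ⟨y, hy⟩ : l.ToType).toOrd x)}
      rw [toOrd_mk hy]
      exact hp
    rw [h0] at h2
    exact absurd h2 (by simp)
  · obtain ⟨e, -, he⟩ := enum_set (K := K) _ hcard h0
    refine ⟨fun k => (e k).toOrd, fun y hy hp => ?_⟩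
    obtain ⟨k, hk⟩ := he (ToType.mk ⟨y, hy⟩) (by
      show Pos W {x ∈ A | {e | ∃ k, S (f (ToType.mk ⟨y, hy⟩ : l.ToType).toOrd x) e = f (p k) x} ∉
        KN δ S (f (ToType.mk ⟨y, hy⟩ : l.ToType).toOrd x)}
      rw [toOrd_mk hy]
      exact hp)
    refine ⟨k, ?_⟩
    show ((e k).toOrd : Ordinal.{u}) = y
    rw [hk, toOrd_mk hy]

end Pool.Agent.Helper89.RV
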